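import Pool.Agent.N18.KM.Base
import Pool.Agent.N24.KM.All
import Pool.Agent.Results.MP_308fa9_nt.RandomOrbits

/-!
# Curves which map to a product of CM elliptic curves, along arbitrary sequences of linear systems and
# almost all multipliers, satisfy Stoll's conjecture

`E_i : y² = x³ + a_i x + b_i` (`i = 1, …, r`) are elliptic curves over `ℚ` with complex multiplication,
of arbitrary rank and without hypothesis on their Tate-Shafarevich groups, `A = E_1 × … × E_r`, `K` is a
number field with integral basis `ω`, `𝒯 = {Φ_l = 0} ⊆ A × ℙᵐ` a closed subvariety over `𝓞 K` with fibres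
of dimension at most `κ` over `A`, and `X_c = 𝒯 ∩ {F_1 = … = F_s = 0}`, where `F_j` runs through all forms
of multidegree `(d_j; e_j)` and `c ∈ (𝓞 K)ᴶ` is the vector of all their coefficients, or the integral
vector of its coordinates with respect to `ω`; `D ≥ 1`, `r > 2 D (r + κ - s)` (for random curves
`r > 2 D`), and the degrees are at least `D - 1`. This is the setting of the starting results
`OverNumberFields` and `RandomOrbits` (whose definitions are used).

Call `X_c` obstructed (`Obstructed`) if there is ONE squarefree level `N` such that, for ALL number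
fields `F` containing `K` with `[F : ℚ] ≤ D`, the variety `X_c` has no point over `F` and its `N`-Selmer
set over `F` is empty. By the theory of descent the Brauer-Manin set of `X_c` over `F`, projected to the
finite places, is then empty, so that `X_c` (if it is a smooth curve) satisfies Q1 over all these `F`.

**Theorem, UNCONDITIONAL.** A sequence `c_0, c_1, …` of integral vectors is called good (`Good`) if
there is ONE set `E` of indices of natural density zero, such that for ALL products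
`A` of `r` elliptic curves as above and ALL `𝒯 ⊆ A × ℙᵐ` as above the variety `X_(c_x)` is obstructed for
all but finitely many `x ∉ E`.

1. Let `f_{i,0}, f_{i,1}, …` be functions which satisfy the hypothesis of Koksma's theorem on
   `[a_i, b_i]` (`Koksma`). Then `c_x = (⌊f_{i,x}(α_i)⌋)_i` is good for almost all `α` with
   `a_i ≤ α_i ≤ b_i`.
2. Let `a_{i,0}, a_{i,1}, …` be ANY sequences of real numbers with mutual distances at least
   `δ > 0`, for example any sequences of different integers (`x!`, `2 ^ x`, any enumeration of any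
   infinite set of integers or of primes). Then `c_x = (⌊a_{i,x} α_i⌋)_i` is good for almost all `α`.
3. Let `k_0, k_1, …` be ANY sequence of different natural numbers, and `ξ_i ≠ 0`. Then
   `c_x = (⌊ξ_i α_i ^ k_x⌋)_i` is good for almost all `α` with all `α_i > 1`.

The index `i` runs through the coordinates of the coefficients, the sequences can be arbitrarily sparse,
and there is one exceptional set for all `A` and `𝒯`.

Proof. The `c` for which `X_c` is not obstructed form a pronull set (`RandomOrbits`: sieve with levels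
`N` with prime factors at most `X ^ η`, theorem of Bombieri and Vinogradov). By the theorem of Koksma in
several variables almost all metric sequences are in such a set only for indices of density zero
(helper24, helper18 and the workers of the project KM). There are countably many `A` and `𝒯`, and a
diagonal argument gives one set `E`.
-/

set_option autoImplicit false

namespace Pool.Agent.Zk49.Moved.MetricRandomCurves

open MeasureTheory Filter Topology MvPolynomial NumberField
open Pool.Agent.N24.RW (ProNull)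
open Pool.Agent.Results.MP_308fa9_nt.RandomOrbits (Coeffs vect Obstructed FewPoints Supersingular
  Multihomogeneous value OnCurve null supersingular_of)
open scoped LinearAlgebra.Projectivization

/-- The hypothesis of Koksma's theorem: the functions `f n` are twice continuously differentiable, the
derivatives of different ones differ by at least `δ > 0` on `[a, b]`, and the second derivative of
`f m - f n` does not change its sign there. -/
def Koksma (a b : ℝ) (f : ℕ → ℝ → ℝ) : Prop :=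
  (∀ n, ContDiff ℝ 2 (f n)) ∧ ∃ δ : ℝ, 0 < δ ∧ ∀ m n : ℕ, m ≠ n →
    (∀ x ∈ Set.Icc a b, δ ≤ |deriv (f m) x - deriv (f n) x|) ∧
    ((∀ x ∈ Set.Icc a b, deriv (deriv (f n)) x ≤ deriv (deriv (f m)) x) ∨
      ∀ x ∈ Set.Icc a b, deriv (deriv (f m)) x ≤ deriv (deriv (f n)) x)

/-- `E` has natural density zero. -/
def DensityZero (E : Set ℕ) : Prop :=
  Tendsto (fun N : ℕ => (({x : ℕ | x < N ∧ x ∈ E}.ncard : ℕ) : ℝ) / (N : ℝ)) atTop (𝓝 0)

/-- The index type of the coordinates (with respect to the integral basis) of all the coefficients of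
the forms `F_1, …, F_s`. -/
abbrev Index (n₀ : ℕ) {r s : ℕ} (m : ℕ) (d : Fin s → Fin r → ℕ) (e : Fin s → ℕ) : Type :=
  Coeffs m d e × Fin n₀

/-- The closed subvariety `𝒯 = {Φ_l = 0}` of `A × ℙᵐ`, where `A` is the product of the elliptic curves
`y² = x³ + a_i x + b_i` with complex multiplication: its equations are multihomogeneous, and its fibres
over `A` have dimension at most some `κ` with `2 D (r + κ - s) < r` (in the sense of `FewPoints`). -/
def Suitable {K : Type} [Field K] [NumberField K] {r m q : ℕ} (s D : ℕ) (a b : Fin r → ℤ)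
    (Φ : Fin q → MvPolynomial ((Fin r × Fin 3) ⊕ Fin (m + 1)) (𝓞 K)) : Prop :=
  (∀ i, Supersingular (a i) (b i)) ∧
  (∃ (d' : Fin q → Fin r → ℕ) (e' : Fin q → ℕ), ∀ l, Multihomogeneous (Φ l) (d' l) (e' l)) ∧
  ∃ κ : ℕ, s ≤ r + κ ∧ 2 * D * (r + κ - s) < r ∧ ∃ B : ℝ, FewPoints a b Φ κ B D

/-- The varieties `X_c`, `c = c x`, for ALL elliptic curves `E_1, …, E_r` and ALL suitable `𝒯`, are
obstructed, apart from the indices `x` in one set of density zero and finitely many more, depending on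
the `E_i` and `𝒯`. -/
def Good {K : Type} [Field K] [NumberField K] {n₀ : ℕ} (ω : Module.Basis (Fin n₀) ℤ (𝓞 K))
    {r s : ℕ} (m : ℕ) (d : Fin s → Fin r → ℕ) (e : Fin s → ℕ) (D : ℕ)
    (c : ℕ → Index n₀ m d e → ℤ) : Prop :=
  ∃ E : Set ℕ, DensityZero E ∧
    ∀ (q : ℕ) (a b : Fin r → ℤ) (Φ : Fin q → MvPolynomial ((Fin r × Fin 3) ⊕ Fin (m + 1)) (𝓞 K)),
      Suitable s D a b Φ → {x : ℕ | x ∉ E ∧ ¬ Obstructed a b Φ D (vect ω (c x))}.Finite

/-- the data -/
abbrev Dat (K : Type) [Field K] [NumberField K] (r m : ℕ) : Type :=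
  (Fin r → ℤ) × (Fin r → ℤ) × (Σ q : ℕ, (Fin q → MvPolynomial ((Fin r × Fin 3) ⊕ Fin (m + 1)) (𝓞 K)))

lemma countable_dat {K : Type} [Field K] [NumberField K] {n₀ : ℕ}
    (ω : Module.Basis (Fin n₀) ℤ (𝓞 K)) (r m : ℕ) : Countable (Dat K r m) := by
  have h1 : Countable (𝓞 K) := ω.equivFun.toEquiv.countable_iff.2 inferInstance
  have h2 : Countable (MvPolynomial ((Fin r × Fin 3) ⊕ Fin (m + 1)) (𝓞 K)) := by
    rw [← Cardinal.mk_le_aleph0_iff]
    refine MvPolynomial.cardinalMk_le_max.trans ?_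
    refine max_le (max_le ?_ ?_) le_rfl
    · rw [Cardinal.mk_le_aleph0_iff]
      exact h1
    · exact Cardinal.mk_le_aleph0
  infer_instance

theorem metric {K : Type} [Field K] [NumberField K] {n₀ : ℕ}
    (ω : Module.Basis (Fin n₀) ℤ (𝓞 K)) {r s : ℕ} (D : ℕ) (hD : 1 ≤ D) (m : ℕ)
    (d : Fin s → Fin r → ℕ) (e : Fin s → ℕ) (hd : ∀ j i, D ≤ d j i + 1) (he : ∀ j, D ≤ e j + 1) :
    (∀ (a b : Index n₀ m d e → ℝ) (f : Index n₀ m d e → ℕ → ℝ → ℝ), (∀ i, a i < b i) →
      (∀ i, Koksma (a i) (b i) (f i)) → ∀ᵐ α : Index n₀ m d e → ℝ,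
        (∀ i, α i ∈ Set.Icc (a i) (b i)) → Good ω m d e D fun x i => ⌊f i x (α i)⌋) ∧
    (∀ (a : Index n₀ m d e → ℕ → ℝ) (δ : ℝ), 0 < δ → (∀ i m n, m ≠ n → δ ≤ |a i m - a i n|) →
      ∀ᵐ α : Index n₀ m d e → ℝ, Good ω m d e D fun x i => ⌊a i x * α i⌋) ∧
    (∀ (k : ℕ → ℕ) (ξ : Index n₀ m d e → ℝ), Function.Injective k → (∀ i, ξ i ≠ 0) →
      ∀ᵐ α : Index n₀ m d e → ℝ, (∀ i, 1 < α i) →
        Good ω m d e D fun x i => ⌊ξ i * α i ^ k x⌋) := by
  classical
  have hcount := countable_dat ω r m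
  let κ' : Type := {x : Dat K r m // Suitable s D x.1 x.2.1 x.2.2.2}
  have hcount' : Countable κ' := Subtype.countable
  refine Pool.Agent.N18.KM.parts (ι := Index n₀ m d e) (κ := κ') Pool.Agent.N24.KM.main
    (fun x => {c : Index n₀ m d e → ℤ | ¬ Obstructed x.1.1 x.1.2.1 x.1.2.2.2 D (vect ω c)})
    (fun x => ?_) (Good ω m d e D) fun c hc => ?_
  · obtain ⟨⟨a, b, q, Φ⟩, hE, ⟨d', e', hΦ⟩, κ, hs, hr, B, hB⟩ := x
    exact null ω r a b hE κ s D hD hs hr d e hd he m q Φ d' e' hΦ B hB
  · obtain ⟨E, e1, e2⟩ := Pool.Agent.N18.KM.one_set c _ hc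
    exact ⟨E, e1, fun q a b Φ hS => e2 ⟨⟨a, b, q, Φ⟩, hS⟩⟩

/-- `𝒯 = A × ℙᵐ` -/
lemma suitable_univ {K : Type} [Field K] [NumberField K] {r : ℕ} (s D m : ℕ) (a b : Fin r → ℤ)
    (hE : ∀ i, Supersingular (a i) (b i)) (hs : s ≤ r + m) (hr : 2 * D * (r + m - s) < r) :
    Suitable (K := K) (m := m) s D a b (fun l : Fin 0 => l.elim0) := by
  refine ⟨hE, ⟨fun l => l.elim0, fun l => l.elim0, fun l => l.elim0⟩, m, hs, hr, 3 / 2, 1, 3,
    one_pos, ?_⟩
  intro p hp hp3 _ k _ _ _ _ φ V hV
  have h1 : {P : ℙ k (Fin (m + 1) → k) |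
      ∀ l : Fin 0, value φ (l.elim0 : MvPolynomial ((Fin r × Fin 3) ⊕ Fin (m + 1)) (𝓞 K)) V
        P.rep = 0} = Set.univ :=
    Set.eq_univ_of_forall fun P l => l.elim0
  have h3 : 3 ≤ Nat.card k := by
    rw [Nat.card_eq_fintype_card]
    refine hp3.trans ?_
    have h4 := Fintype.card_le_of_injective _ (algebraMap (ZMod p) k).injective
    rwa [ZMod.card] at h4
  rw [h1, Set.ncard_univ]
  have h2 := Pool.Agent.N89.CI.density_fun (k := k) (m := m) (κ := m) h3 rfl
  rwa [Nat.card_eq_fintype_card (α := k)] at h2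

/-- `𝒯 = A × Y` for a hypersurface `Y : f = 0` in `ℙ^(κ+1)` over `K` -/
lemma suitable_hyp {K : Type} [Field K] [NumberField K] {r : ℕ} (s D κ : ℕ) (a b : Fin r → ℤ)
    (hE : ∀ i, Supersingular (a i) (b i)) (hs : s ≤ r + κ) (hr : 2 * D * (r + κ - s) < r)
    (g : ℕ) (f : MvPolynomial (Fin (κ + 2)) (𝓞 K)) (hf : f.IsHomogeneous g) (hf0 : f ≠ 0) :
    Suitable (K := K) (m := κ + 1) s D a b (fun _ : Fin 1 => rename Sum.inr f) := by
  obtain ⟨p₁, hp₁⟩ := Pool.Agent.N890.DU.hyp_countK κ g f hf hf0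
  refine ⟨hE, ⟨fun _ _ => 0, fun _ => g, fun _ => ?_⟩, κ, hs, hr, 2 * g, 1, p₁, one_pos, ?_⟩
  · intro x hx
    classical
    obtain ⟨y, hy1, hy2⟩ := coeff_rename_ne_zero _ _ _ (mem_support_iff.1 hx)
    subst hy1
    refine ⟨fun i => Finset.sum_eq_zero fun j _ => ?_, ?_⟩
    · rw [Finsupp.mapDomain_of_notMem_range]
      simp
    · have h1 := hf hy2
      rw [Finsupp.weight_apply, Finsupp.sum_fintype _ _ (fun _ => by simp)] at h1
      rw [← h1]
      refine Finset.sum_congr rfl fun i _ => ?_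
      rw [Finsupp.mapDomain_apply Sum.inr_injective]
      simp
  · intro p hp hp1 _ k _ _ _ _ φ V hV
    refine le_trans (le_of_eq ?_) (hp₁ p hp1 k φ)
    congr 2
    ext P
    simp only [Set.mem_ofPred_eq]
    unfold value
    rw [eval₂_rename]
    simp only [Sum.elim_comp_inr]
    exact ⟨fun h => h 0, fun h _ => h⟩

/-- **Along almost all metric sequences almost all members `X_c` of these linear systems over `K` have,
for one squarefree level, empty Selmer sets over all number fields `F` with `[F : ℚ] ≤ D`,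
unconditionally; one exceptional set for all elliptic curves and all `𝒯`.** -/
theorem result (K : Type) [Field K] [NumberField K] (n₀ : ℕ)
    (ω : Module.Basis (Fin n₀) ℤ (𝓞 K)) (r s D : ℕ) (hD : 1 ≤ D) :
    (∀ (m : ℕ) (d : Fin s → Fin r → ℕ) (e : Fin s → ℕ), (∀ j i, D ≤ d j i + 1) →
      (∀ j, D ≤ e j + 1) →
      (∀ (a b : Index n₀ m d e → ℝ) (f : Index n₀ m d e → ℕ → ℝ → ℝ), (∀ i, a i < b i) →
        (∀ i, Koksma (a i) (b i) (f i)) → ∀ᵐ α : Index n₀ m d e → ℝ,
          (∀ i, α i ∈ Set.Icc (a i) (b i)) → Good ω m d e D fun x i => ⌊f i x (α i)⌋) ∧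
      (∀ (a : Index n₀ m d e → ℕ → ℝ) (δ : ℝ), 0 < δ → (∀ i m n, m ≠ n → δ ≤ |a i m - a i n|) →
        ∀ᵐ α : Index n₀ m d e → ℝ, Good ω m d e D fun x i => ⌊a i x * α i⌋) ∧
      (∀ (k : ℕ → ℕ) (ξ : Index n₀ m d e → ℝ), Function.Injective k → (∀ i, ξ i ≠ 0) →
        ∀ᵐ α : Index n₀ m d e → ℝ, (∀ i, 1 < α i) →
          Good ω m d e D fun x i => ⌊ξ i * α i ^ k x⌋)) ∧
    -- the curves `y² = x³ + a x` and `y² = x³ + b`
    (∀ a b : ℤ, a * b = 0 → (a ≠ 0 ∨ b ≠ 0) → Supersingular a b) ∧
    -- `𝒯 = A × ℙ^κ`, and `𝒯 = A × Y` for a hypersurface `Y : f = 0` in `ℙ^(κ+1)` over `K`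
    (∀ (κ : ℕ) (a b : Fin r → ℤ), (∀ i, Supersingular (a i) (b i)) → s ≤ r + κ →
      2 * D * (r + κ - s) < r →
      Suitable (K := K) (m := κ) s D a b (fun l : Fin 0 => l.elim0) ∧
      ∀ (g : ℕ) (f : MvPolynomial (Fin (κ + 2)) (𝓞 K)), f.IsHomogeneous g → f ≠ 0 →
        Suitable (K := K) (m := κ + 1) s D a b (fun _ : Fin 1 => rename Sum.inr f)) :=
  ⟨fun m d e hd he => metric ω D hD m d e hd he, supersingular_of,
    fun κ a b hE hs hr => ⟨suitable_univ s D κ a b hE hs hr,
      fun g f hf hf0 => suitable_hyp s D κ a b hE hs hr g f hf hf0⟩⟩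

end Pool.Agent.Zk49.Moved.MetricRandomCurves
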