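import Pool.Agent.N24.KM.All
import Pool.Agent.Results.MP_e66f84_ag.RandomOrbits

/-!
# The section conjecture for superelliptic curves with coefficients from arbitrary sequences, for almost
# all multipliers

Let `k` be a number field, or any field finitely generated over `ℚ`, the fraction field of a domain `R`
of characteristic zero that is finitely generated as a ring, and let `e_1, …, e_m` be elements of `R`,
not all zero (for instance `m = 1` and `e_1 = 1`, or an integral basis of the number field `k`). For a
vector `x = (x_{i j})` of integers, `0 ≤ i ≤ D + 1`, `1 ≤ j ≤ m`, put `c_i = ∑_j x_{i j} e_j`. The vector `x`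
is called bad (`Bad`) if for some `d` with `3 ≤ d ≤ D` the following is NOT true: the polynomial
`f = c_1 + c_2 x + … + c_{d+1} x ^ d` is irreducible of degree `d` over `k`, `c_0 ≠ 0`, and for all
`a ≥ 1` not coprime to `d` the curve `c_0 y ^ a = f(x)` over `k` has no point over `k`, and the fundamental
groups of its open subcurves and of all smooth curves over `k` that dominate it have no sections (so that
these curves satisfy the section conjecture). Nothing is assumed about the sections.

**Theorem.** A sequence `x(0), x(1), …` of integral vectors is called good (`Good`) if the set of the `n`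
for which `x(n)` is bad has natural density zero.

1. Let `f_{i,0}, f_{i,1}, …` be functions which satisfy the hypothesis of Koksma's theorem on
   `[a_i, b_i]` (`Koksma`). Then `x(n) = (⌊f_{i,n}(α_i)⌋)_i` is good for almost all `α` with
   `a_i ≤ α_i ≤ b_i`.
2. Let `a_{i,0}, a_{i,1}, …` be ANY sequences of real numbers with mutual distances at least
   `δ > 0`, for example any sequences of different integers (`n!`, `2 ^ n`, any enumeration of any
   infinite set of integers or of primes). Then `x(n) = (⌊a_{i,n} α_i⌋)_i` is good for almost all `α`.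
3. Let `k_0, k_1, …` be ANY sequence of different natural numbers, and `ξ_i ≠ 0`. Then
   `x(n) = (⌊ξ_i α_i ^ k_n⌋)_i` is good for almost all `α` with all `α_i > 1`.

The index `i` runs through the `(D + 2) m` coordinates. The sequences can grow arbitrarily fast, so that
the number of the curves considered with coefficients up to `T` tends to infinity with `T` as slowly as one
likes. The definitions (`NoPoint`, `NoSection`, `Exceptional`) are those of the starting result
`Pool.Agent.Results.MP_e66f84_ag.SuperellipticFamilies`, which shows that almost all vectors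
`(c_0, …, c_{d+1})` of a box have the property; the starting result
`Pool.Agent.Results.MP_e66f84_ag.RandomOrbits` (whose `coeffs` is used) treats random orbits.

Proof. For the primes `p` of a set with divergent sum of the `1/p` there are residue classes modulo `p²`
of density at least a constant times `1/p` such that the curves with coordinate vectors in these classes
have no sections (`Pool.Agent.N92.TH.local_supply`, helper92, helper377). So the bad vectors form a
pronull set: for all `M` and `ε` there is a `q` prime to `M` such that they are in at most `ε q ^ N` classes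
modulo `q` (`Pool.Agent.N697.RO.good_pronull`, helper697). By the theorem of Koksma in several variables
almost all metric sequences are in a pronull set only for indices of density zero (helper24 and the
workers of the project KM).
-/

set_option autoImplicit false

namespace Pool.Agent.Results.MP_2f3286_ag.SuperellipticMetricSequences

open MeasureTheory Filter Topology
open Pool.Agent.N24.RW (ProNull)
open Pool.Agent.Results.MP_e66f84_ag.SuperellipticFamilies (Exceptional)
open Pool.Agent.Results.MP_e66f84_ag.RandomOrbits (coeffs not_exceptional)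

universe v w

/-- The hypothesis of Koksma's theorem: the functions `f n` are twice continuously differentiable, the
derivatives of different ones differ by at least `δ > 0` on `[a, b]`, and the second derivative of
`f m - f n` does not change its sign there. -/
def Koksma (a b : ℝ) (f : ℕ → ℝ → ℝ) : Prop :=
  (∀ n, ContDiff ℝ 2 (f n)) ∧ ∃ δ : ℝ, 0 < δ ∧ ∀ m n : ℕ, m ≠ n →
    (∀ x ∈ Set.Icc a b, δ ≤ |deriv (f m) x - deriv (f n) x|) ∧
    ((∀ x ∈ Set.Icc a b, deriv (deriv (f n)) x ≤ deriv (deriv (f m)) x) ∨
      ∀ x ∈ Set.Icc a b, deriv (deriv (f m)) x ≤ deriv (deriv (f n)) x)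

/-- For some `d` with `3 ≤ d ≤ D` the vector `(c_0, …, c_{d+1})`, `c_i = ∑_j x_{i j} e_j`, is exceptional:
it is not true that `c_0 ≠ 0`, that `f = c_1 + c_2 x + … + c_{d+1} x ^ d` is irreducible of degree `d` over
`k` and that for all `a ≥ 1` not coprime to `d` the curve `c_0 y ^ a = f(x)` has no point and no section. -/
def Bad {R : Type} [CommRing R] (k : Type) [Field k] [Algebra R k] {m : ℕ} (e : Fin m → R) (D : ℕ)
    (x : Fin (D + 2) × Fin m → ℤ) : Prop :=
  ∃ (d : ℕ) (h : d ≤ D), 3 ≤ d ∧ coeffs e x d h ∈ Exceptional.{v, w} R k d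

/-- The vectors `x n` are bad only for a set of indices of natural density zero. -/
def Good {R : Type} [CommRing R] (k : Type) [Field k] [Algebra R k] {m : ℕ} (e : Fin m → R) (D : ℕ)
    (x : ℕ → Fin (D + 2) × Fin m → ℤ) : Prop :=
  Tendsto (fun N : ℕ => (({n : ℕ | n < N ∧ Bad.{v, w} k e D (x n)}.ncard : ℕ) : ℝ) / (N : ℝ))
    atTop (𝓝 0)

/-- the bad vectors are a pronull set -/
theorem bad_pronull {R : Type} [CommRing R] [IsDomain R] [CharZero R] [Algebra.FiniteType ℤ R]
    (k : Type) [Field k] [Algebra R k] [IsFractionRing R k] {m : ℕ} (e : Fin m → R) (he : e ≠ 0)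
    (D : ℕ) : ProNull {x : Fin (D + 2) × Fin m → ℤ | Bad.{v, w} k e D x} := by
  classical
  have hclo := Pool.Agent.N24.RW.clo
  obtain ⟨j₀, hj₀⟩ : ∃ j, e j ≠ 0 := by
    by_contra hcon
    push Not at hcon
    exact he (funext hcon)
  have h1 := Pool.Agent.N697.RO.pronull_biUnion hclo (ι := Fin (D + 2) × Fin m)
    (Finset.univ : Finset (Fin (D + 1)))
    (fun d => {y : Fin (D + 2) × Fin m → ℤ | 3 ≤ (d : ℕ) ∧
      (fun z : Fin ((d : ℕ) + 2) × Fin m =>
        y (Pool.Agent.N697.RO.cut (Nat.le_of_lt_succ d.2) z)) ∈
        {x : Fin ((d : ℕ) + 2) × Fin m → ℤ |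
          ¬ Pool.Agent.TH377.Sup.Good.{v, w} k (Pool.Agent.N92.TH.comb e x)}}) (by
    intro d _
    by_cases h3 : 3 ≤ (d : ℕ)
    · refine (hclo _).1 _ _ ?_ ((hclo (Fin ((d : ℕ) + 2) × Fin m)).2.2.2.2 (Fin (D + 2) × Fin m)
        (Pool.Agent.N697.RO.cut (Nat.le_of_lt_succ d.2)) (Pool.Agent.N697.RO.cut_inj _) _
        (Pool.Agent.N697.RO.good_pronull.{v, w} (k := k) e j₀ hj₀ d h3))
      rintro y ⟨-, hy⟩
      exact hy
    · refine (hclo _).1 _ _ ?_ Pool.Agent.N697.RO.pronull_empty
      rintro y ⟨h, -⟩
      exact absurd h h3)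
  refine (hclo _).1 _ _ ?_ h1
  rintro y ⟨d, h, h3, hy⟩
  exact ⟨⟨d, Nat.lt_succ_of_le h⟩, Finset.mem_univ _, h3,
    fun hg => not_exceptional.{v, w} hg hy⟩

lemma good_of {R : Type} [CommRing R] {k : Type} [Field k] [Algebra R k] {m : ℕ} {e : Fin m → R}
    {D : ℕ} {x : ℕ → Fin (D + 2) × Fin m → ℤ}
    (h : Pool.Agent.N24.KM.Rarely x {x | Bad.{v, w} k e D x}) : Good.{v, w} k e D x := h

theorem result (R : Type) [CommRing R] [IsDomain R] [CharZero R] [Algebra.FiniteType ℤ R]
    (k : Type) [Field k] [Algebra R k] [IsFractionRing R k] (m : ℕ) (e : Fin m → R) (he : e ≠ 0)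
    (D : ℕ) :
    (∀ (a b : Fin (D + 2) × Fin m → ℝ) (f : Fin (D + 2) × Fin m → ℕ → ℝ → ℝ), (∀ i, a i < b i) →
      (∀ i, Koksma (a i) (b i) (f i)) → ∀ᵐ α : Fin (D + 2) × Fin m → ℝ,
        (∀ i, α i ∈ Set.Icc (a i) (b i)) → Good.{v, w} k e D fun n i => ⌊f i n (α i)⌋) ∧
    (∀ (a : Fin (D + 2) × Fin m → ℕ → ℝ) (δ : ℝ), 0 < δ →
      (∀ i l n, l ≠ n → δ ≤ |a i l - a i n|) →
      ∀ᵐ α : Fin (D + 2) × Fin m → ℝ, Good.{v, w} k e D fun n i => ⌊a i n * α i⌋) ∧
    (∀ (κ : ℕ → ℕ) (ξ : Fin (D + 2) × Fin m → ℝ), Function.Injective κ → (∀ i, ξ i ≠ 0) →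
      ∀ᵐ α : Fin (D + 2) × Fin m → ℝ, (∀ i, 1 < α i) →
        Good.{v, w} k e D fun n i => ⌊ξ i * α i ^ κ n⌋) := by
  have h := Pool.Agent.N24.KM.main (Fin (D + 2) × Fin m) _ (bad_pronull.{v, w} k e he D)
  refine ⟨fun a b f hab hf => ?_, fun a δ hδ ha => ?_, fun κ ξ hκ hξ => ?_⟩
  · filter_upwards [h.1 a b f hab hf] with α hα hI
    exact good_of (hα hI)
  · filter_upwards [h.2.1 a δ hδ ha] with α hα
    exact good_of hα
  · filter_upwards [h.2.2 κ ξ hκ hξ] with α hα h1
    exact good_of (hα h1)

end Pool.Agent.Results.MP_2f3286_ag.SuperellipticMetricSequences
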